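import Pool.Agent.W91.BH.Stm

set_option autoImplicit false

open MeasureTheory Metric
open scoped ENNReal

namespace Pool.Agent.W152.BH.Cov1
open Pool.Agent.W91.BH

lemma level (d : ℝ) (hd : 0 < d) (D : ℝ) (h0 : 0 ≤ D) (h1 : D ≤ 1) (e : ℝ) (he : 0 < e) :
    ∃ k : ℕ, D ≤ (1 / 2 : ℝ) ^ k ∧ (2 : ℝ) ^ (-((k : ℝ) * d)) ≤ (2 : ℝ) ^ d * (D ^ d + e) := by
  set ρ : ℝ := min 1 ((D ^ d + e) ^ (1 / d)) with hρ
  have hDd : 0 ≤ D ^ d := Real.rpow_nonneg h0 _
  have hpos : 0 < (D ^ d + e) ^ (1 / d) := Real.rpow_pos_of_pos (by linarith) _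
  have hρ0 : 0 < ρ := lt_min one_pos hpos
  have hρ1 : ρ ≤ 1 := min_le_left _ _
  have hDρ : D ≤ ρ := by
    refine le_min h1 ?_
    calc D = (D ^ d) ^ (1 / d) := by
          rw [← Real.rpow_mul h0, mul_one_div_cancel hd.ne', Real.rpow_one]
      _ ≤ _ := Real.rpow_le_rpow hDd (by linarith) (by positivity)
  have hρd : ρ ^ d ≤ D ^ d + e := by
    calc ρ ^ d ≤ ((D ^ d + e) ^ (1 / d)) ^ d :=
          Real.rpow_le_rpow hρ0.le (min_le_right _ _) hd.le
      _ = D ^ d + e := by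
          rw [← Real.rpow_mul (by linarith), one_div_mul_cancel hd.ne', Real.rpow_one]
  obtain ⟨k, hk1, hk2⟩ := exists_nat_pow_near_of_lt_one hρ0 hρ1
    (by norm_num : (0 : ℝ) < 1 / 2) (by norm_num)
  refine ⟨k, hDρ.trans hk2, ?_⟩
  have e0 : ((1 / 2 : ℝ) ^ (k + 1)) = (2 : ℝ) ^ (-((k : ℝ) + 1)) := by
    rw [Real.rpow_neg (by norm_num)]
    have : ((k : ℝ) + 1) = ((k + 1 : ℕ) : ℝ) := by push_cast; ring
    rw [this, Real.rpow_natCast]
    simp
  have e1 : (2 : ℝ) ^ (-((k : ℝ) * d)) = (2 : ℝ) ^ d * ((1 / 2 : ℝ) ^ (k + 1)) ^ d := by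
    rw [e0, ← Real.rpow_mul (by norm_num), ← Real.rpow_add (by norm_num)]
    congr 1
    ring
  rw [e1]
  apply mul_le_mul_of_nonneg_left _ (by positivity)
  exact (Real.rpow_le_rpow (by positivity) hk1.le hd.le).trans hρd

lemma sum_biUnion_le {α β : Type} [DecidableEq β] (s : Finset α) (G : α → Finset β)
    (w : β → ℝ) (hw : ∀ b, 0 ≤ w b) :
    ∑ b ∈ s.biUnion G, w b ≤ ∑ a ∈ s, ∑ b ∈ G a, w b := by
  classical
  induction s using Finset.induction_on with
  | empty => simp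
  | insert a s ha ih =>
    rw [Finset.biUnion_insert, Finset.sum_insert ha]
    have h1 := Finset.sum_union_inter (s₁ := G a) (s₂ := s.biUnion G) (f := w)
    have h2 : 0 ≤ ∑ b ∈ G a ∩ s.biUnion G, w b := Finset.sum_nonneg (fun b _ => hw b)
    linarith

lemma floor_close (a b : ℝ) (h : |a - b| < 2) : ⌊b⌋ - 3 ≤ ⌊a⌋ ∧ ⌊a⌋ ≤ ⌊b⌋ + 3 := by
  rw [abs_lt] at h
  have h1 := Int.floor_le a
  have h2 := Int.lt_floor_add_one a
  have h3 := Int.floor_le b
  have h4 := Int.lt_floor_add_one b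
  constructor
  · have : ((⌊b⌋ - 3 : ℤ) : ℝ) ≤ (⌊a⌋ : ℝ) := by push_cast; linarith
    exact_mod_cast this
  · have : ((⌊a⌋ : ℤ) : ℝ) ≤ ((⌊b⌋ + 3 : ℤ) : ℝ) := by push_cast; linarith
    exact_mod_cast this

theorem cov1 : S_COV1 := by
  classical
  intro n d K hd hK h0 ε hε
  set C : ℝ := 7 ^ n * (2 : ℝ) ^ d with hC
  have hCpos : 0 < C := by positivity
  set δ : ℝ := ε / (6 * C) with hδ
  have hδpos : 0 < δ := by positivity
  rw [Measure.hausdorffMeasure_apply] at h0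
  have h1 := ENNReal.iSup_eq_zero.1 (ENNReal.iSup_eq_zero.1 h0 1) one_pos
  have h2 : (⨅ (t : ℕ → Set (E n)) (_ : K ⊆ ⋃ n, t n) (_ : ∀ n, ediam (t n) ≤ 1),
      ∑' n, ⨆ _ : (t n).Nonempty, ediam (t n) ^ d) < ENNReal.ofReal δ := by
    rw [h1]
    simpa using hδpos
  simp only [iInf_lt_iff] at h2
  obtain ⟨t, ht1, ht2, ht3⟩ := h2
  have hfin : ∀ m, ediam (t m) ≠ ⊤ := fun m => ne_top_of_le_ne_top ENNReal.one_ne_top (ht2 m)
  have hD1 : ∀ m, (ediam (t m)).toReal ≤ 1 := fun m => by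
    have := ENNReal.toReal_mono ENNReal.one_ne_top (ht2 m)
    simpa using this
  choose k hk1 hk2 using fun m => level d hd (ediam (t m)).toReal ENNReal.toReal_nonneg (hD1 m)
    (δ * (1 / 2 : ℝ) ^ m) (by positivity)
  have hx : ∀ m, ∃ x : E n, (t m).Nonempty → x ∈ t m := fun m => by
    by_cases h : (t m).Nonempty
    · obtain ⟨x, hx⟩ := h
      exact ⟨x, fun _ => hx⟩
    · exact ⟨0, fun h' => absurd h' h⟩
  choose x hx using hx
  set U : ℕ → Set (E n) := fun m =>
    if (t m).Nonempty then ball (x m) (2 * (1 / 2 : ℝ) ^ k m) else ∅ with hU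
  have hUo : ∀ m, IsOpen (U m) := fun m => by
    simp only [hU]
    split_ifs
    · exact isOpen_ball
    · exact isOpen_empty
  have hUc : K ⊆ ⋃ m, U m := by
    intro y hy
    obtain ⟨m, hm⟩ := Set.mem_iUnion.1 (ht1 hy)
    refine Set.mem_iUnion.2 ⟨m, ?_⟩
    have hne : (t m).Nonempty := ⟨y, hm⟩
    simp only [hU, if_pos hne, mem_ball]
    have h3 : edist y (x m) ≤ ediam (t m) := edist_le_ediam_of_mem hm (hx m hne)
    have h4 : dist y (x m) ≤ (ediam (t m)).toReal := by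
      rw [dist_edist]
      exact ENNReal.toReal_mono (hfin m) h3
    have h5 : (0 : ℝ) < (1 / 2 : ℝ) ^ k m := by positivity
    linarith [hk1 m]
  obtain ⟨s, hs⟩ := hK.elim_finite_subcover U hUo hUc
  set s' : Finset ℕ := s.filter (fun m => (t m).Nonempty) with hs'
  set G : ℕ → Finset (Idx n) := fun m =>
    (Fintype.piFinset (fun i : Fin n => Finset.Icc (⌊(2 : ℝ) ^ k m * x m i⌋ - 3)
      (⌊(2 : ℝ) ^ k m * x m i⌋ + 3))).image (fun z => (k m, z)) with hG
  refine ⟨s'.biUnion G, ?_, ?_⟩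
  · intro y hy
    have h3 := hs hy
    simp only [Set.mem_iUnion] at h3
    obtain ⟨m, hm, hym⟩ := h3
    have hne : (t m).Nonempty := by
      by_contra h
      simp only [hU, if_neg h] at hym
      exact hym
    simp only [hU, if_pos hne, mem_ball] at hym
    simp only [Set.mem_iUnion]
    refine ⟨(k m, fun i => ⌊(2 : ℝ) ^ k m * y i⌋), ?_, ?_⟩
    · rw [Finset.mem_biUnion]
      refine ⟨m, by simp [hs', hm, hne], ?_⟩
      simp only [hG, Finset.mem_image]
      refine ⟨fun i => ⌊(2 : ℝ) ^ k m * y i⌋, ?_, rfl⟩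
      rw [Fintype.mem_piFinset]
      intro i
      rw [Finset.mem_Icc]
      apply floor_close
      have h5 : |y i - x m i| ≤ dist y (x m) := by
        have := PiLp.norm_apply_le (y - x m) i
        rw [dist_eq_norm]
        simpa using this
      have h6 : (2 : ℝ) ^ k m * (1 / 2 : ℝ) ^ k m = 1 := by
        rw [← mul_pow]; norm_num
      have h7 : (0 : ℝ) < (2 : ℝ) ^ k m := by positivity
      rw [← mul_sub, abs_mul, abs_of_pos h7]
      calc (2 : ℝ) ^ k m * |y i - x m i| < (2 : ℝ) ^ k m * (2 * (1 / 2 : ℝ) ^ k m) := by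
            apply mul_lt_mul_of_pos_left _ h7
            linarith
        _ = 2 * ((2 : ℝ) ^ k m * (1 / 2 : ℝ) ^ k m) := by ring
        _ = 2 := by rw [h6]; ring
    · intro i
      rfl
  · have hw : ∀ Q : Idx n, 0 ≤ (2 : ℝ) ^ (-((Q.1 : ℝ) * d)) := fun Q => by positivity
    have hsumG : ∀ m, ∑ Q ∈ G m, (2 : ℝ) ^ (-((Q.1 : ℝ) * d)) =
        7 ^ n * (2 : ℝ) ^ (-((k m : ℝ) * d)) := by
      intro m
      simp only [hG]
      rw [Finset.sum_image]
      · simp only [Finset.sum_const, Fintype.card_piFinset, Int.card_Icc]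
        have h8 : ∀ a : ℤ, (a + 3 + 1 - (a - 3)).toNat = 7 := fun a => by
          have : a + 3 + 1 - (a - 3) = 7 := by ring
          rw [this]; rfl
        simp [h8]
      · intro a _ b _ hab
        exact (Prod.mk.inj hab).2
    have hA : ∑ m ∈ s', (ediam (t m)).toReal ^ d ≤ δ := by
      have h9 : ∑ m ∈ s', ediam (t m) ^ d ≤ ENNReal.ofReal δ := by
        calc ∑ m ∈ s', ediam (t m) ^ d
            = ∑ m ∈ s', ⨆ _ : (t m).Nonempty, ediam (t m) ^ d := by
              apply Finset.sum_congr rfl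
              intro m hm
              have hne : (t m).Nonempty := (Finset.mem_filter.1 hm).2
              rw [iSup_pos hne]
          _ ≤ ∑' m, ⨆ _ : (t m).Nonempty, ediam (t m) ^ d := ENNReal.sum_le_tsum s'
          _ ≤ ENNReal.ofReal δ := ht3.le
      have h10 : ∑ m ∈ s', (ediam (t m)).toReal ^ d = (∑ m ∈ s', ediam (t m) ^ d).toReal := by
        rw [ENNReal.toReal_sum]
        · apply Finset.sum_congr rfl
          intro m _
          rw [ENNReal.toReal_rpow]
        · intro m _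
          exact ENNReal.rpow_ne_top_of_nonneg hd.le (hfin m)
      rw [h10]
      exact ENNReal.toReal_le_of_le_ofReal hδpos.le h9
    have hB : ∑ m ∈ s', (1 / 2 : ℝ) ^ m ≤ 2 := by
      have h11 := summable_geometric_two.sum_le_tsum s' (fun m _ => by positivity)
      rw [tsum_geometric_two] at h11
      exact h11
    calc ∑ Q ∈ s'.biUnion G, (2 : ℝ) ^ (-((Q.1 : ℝ) * d))
        ≤ ∑ m ∈ s', ∑ Q ∈ G m, (2 : ℝ) ^ (-((Q.1 : ℝ) * d)) :=
          sum_biUnion_le s' G _ hw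
      _ = ∑ m ∈ s', 7 ^ n * (2 : ℝ) ^ (-((k m : ℝ) * d)) :=
          Finset.sum_congr rfl (fun m _ => hsumG m)
      _ ≤ ∑ m ∈ s', 7 ^ n * ((2 : ℝ) ^ d * ((ediam (t m)).toReal ^ d + δ * (1 / 2 : ℝ) ^ m)) := by
          apply Finset.sum_le_sum
          intro m _
          exact mul_le_mul_of_nonneg_left (hk2 m) (by positivity)
      _ = C * (∑ m ∈ s', (ediam (t m)).toReal ^ d + δ * ∑ m ∈ s', (1 / 2 : ℝ) ^ m) := by
          rw [hC, Finset.mul_sum (a := δ), ← Finset.sum_add_distrib, Finset.mul_sum]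
          apply Finset.sum_congr rfl
          intro m _
          ring
      _ ≤ C * (δ + δ * 2) := by
          apply mul_le_mul_of_nonneg_left _ hCpos.le
          have := mul_le_mul_of_nonneg_left hB hδpos.le
          linarith
      _ = ε / 2 := by
          rw [hδ]
          field_simp
          ring
      _ < ε := by linarith

end Pool.Agent.W152.BH.Cov1
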